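import Mathlib
import Pool.Agent.Hhelper52.GonDefs
import Pool.Agent.Hhelper52.GonBasic
import Pool.Agent.Hhelper52.GonBlow
import Pool.Agent.Hhelper52.GonUpper

set_option autoImplicit false

namespace Pool.Agent.Results.MP_28c31d_co.EverySubdivision

open Pool.Agent.Hhelper52.Gon MGraph

/-! ### Connectedness of a blow-up -/

theorem blow_connected {W F : Type} (H : HG W F) (M : ℕ) (hM : 0 < M) (e0 : F)
    (h : ∀ S : Set F, e0 ∈ S → (∀ e e' b b', e ∈ S → H.at' (e, b) = H.at' (e', b') → e' ∈ S) →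
      ∀ e, e ∈ S) : (H.blow M).Connected := by
  unfold Connected
  set Γ := SimpleGraph.fromRel (fun u v => ∃ e, (H.blow M).src e = u ∧ (H.blow M).tgt e = v) with hΓ
  have hadj : ∀ x, Γ.Adj ((H.blow M).src x) ((H.blow M).tgt x) := by
    intro x
    rw [hΓ, SimpleGraph.fromRel_adj]
    exact ⟨(H.blow M).loopless x, Or.inl ⟨x, rfl, rfl⟩⟩
  have hpath : ∀ (e : F) (q : ℕ) (hq : q < H.l e + 1), Γ.Reachable ⟨e, 0⟩ ⟨e, ⟨q, hq⟩⟩ := by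
    intro e q
    induction q with
    | zero => intro hq; exact SimpleGraph.Reachable.refl _
    | succ q ih =>
      intro hq
      refine (ih (by omega)).trans ?_
      have := (hadj (Sum.inl ⟨e, ⟨q, by omega⟩⟩)).reachable
      exact this
  have hterm : ∀ ε : F × Bool, Γ.Reachable ⟨ε.1, 0⟩ (H.term ε) := by
    intro ε
    unfold HG.term
    exact hpath ε.1 _ _
  have hall : ∀ e, Γ.Reachable ⟨e0, 0⟩ ⟨e, 0⟩ := by
    intro e
    have := h {e | Γ.Reachable ⟨e0, 0⟩ ⟨e, 0⟩} (SimpleGraph.Reachable.refl _) (by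
      intro e e' b b' he hat
      by_cases hee : e = e'
      · rw [← hee]; exact he
      · have h1 := (hadj (Sum.inr (⟨((e, b), (e', b')), hee, hat⟩, ⟨0, hM⟩))).reachable
        have h2 : Γ.Reachable (H.term (e, b)) (H.term (e', b')) := h1
        exact he.trans ((hterm (e, b)).trans (h2.trans (hterm (e', b')).symm)))
    exact this e
  have : Nonempty H.BV := ⟨⟨e0, 0⟩⟩
  refine SimpleGraph.Connected.mk ?_
  intro u v
  obtain ⟨e, q⟩ := u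
  obtain ⟨e', q'⟩ := v
  exact ((hall e).trans (hpath e q q.2)).symm.trans ((hall e').trans (hpath e' q' q'.2))

/-! ### The weighted graph: vertices `c_0..c_8 = 0..8`, `a_0, a_1, a_2 = 9, 10, 11` -/

def sL : Fin 31 → Fin 12 :=
  ![9, 10, 11, 0, 1, 2, 3, 4, 5, 6, 7, 8, 0, 1, 2, 3, 4, 5, 6, 7, 8, 0, 1, 2, 3, 4, 5, 6, 7, 8, 0]

def tL : Fin 31 → Fin 12 :=
  ![10, 11, 9, 1, 2, 3, 4, 5, 6, 7, 8, 0, 9, 10, 11, 9, 10, 11, 9, 10, 11, 10, 11, 9, 10, 11, 9, 10,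
    11, 9, 4]

def lL : Fin 31 → ℕ :=
  ![1, 1, 1, 1, 1, 1, 1, 1, 1, 1, 1, 1, 2, 2, 2, 2, 2, 2, 2, 2, 2, 3, 3, 3, 3, 3, 3, 3, 3, 3, 4]

def xiL : Fin 31 → ℕ :=
  ![0, 0, 1, 0, 0, 1, 0, 0, 1, 0, 0, 1, 1, 1, 1, 1, 1, 1, 1, 1, 1, 1, 1, 2, 1, 1, 2, 1, 1, 2, 1]

def dL : Fin 12 → Fin 12 → ℤ := ![
  ![0, 1, 2, 3, 4, 4, 3, 2, 1, 2, 3, 3], ![1, 0, 1, 2, 3, 4, 4, 3, 2, 3, 2, 3],
  ![2, 1, 0, 1, 2, 3, 4, 4, 3, 3, 3, 2], ![3, 2, 1, 0, 1, 2, 3, 4, 4, 2, 3, 3],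
  ![4, 3, 2, 1, 0, 1, 2, 3, 4, 3, 2, 3], ![4, 4, 3, 2, 1, 0, 1, 2, 3, 3, 3, 2],
  ![3, 4, 4, 3, 2, 1, 0, 1, 2, 2, 3, 3], ![2, 3, 4, 4, 3, 2, 1, 0, 1, 3, 2, 3],
  ![1, 2, 3, 4, 4, 3, 2, 1, 0, 3, 3, 2], ![2, 3, 3, 2, 3, 3, 2, 3, 3, 0, 1, 1],
  ![3, 2, 3, 3, 2, 3, 3, 2, 3, 1, 0, 1], ![3, 3, 2, 3, 3, 2, 3, 3, 2, 1, 1, 0]]

def bL : Fin 12 → Fin 12 → ℤ := ![
  ![0, 0, 0, 1, 1, 2, 2, 1, 0, 1, 1, 1], ![1, 0, 0, 1, 1, 1, 3, 2, 1, 2, 1, 1],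
  ![2, 1, 0, 1, 1, 1, 2, 3, 2, 2, 2, 1], ![2, 1, 0, 0, 0, 0, 1, 1, 2, 1, 1, 1],
  ![3, 2, 1, 1, 0, 0, 1, 1, 1, 2, 1, 1], ![2, 3, 2, 2, 1, 0, 1, 1, 1, 2, 2, 1],
  ![1, 1, 2, 2, 1, 0, 0, 0, 0, 1, 1, 1], ![1, 1, 1, 3, 2, 1, 1, 0, 0, 2, 1, 1],
  ![1, 1, 1, 2, 3, 2, 2, 1, 0, 2, 2, 1], ![1, 1, 1, 1, 1, 1, 1, 1, 1, 0, 0, 0],
  ![2, 1, 1, 2, 1, 1, 2, 1, 1, 1, 0, 0], ![2, 2, 1, 2, 2, 1, 2, 2, 1, 1, 1, 0]]

def H : HG (Fin 12) (Fin 31) where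
  s := sL
  t := tL
  l := lL
  lpos := by decide +kernel
  hst := by decide +kernel

def parent : Fin 31 → Fin 31 :=
  ![0, 0, 0, 12, 13, 14, 15, 16, 17, 18, 19, 20, 0, 1, 2, 0, 1, 2, 0, 1, 2, 12, 13, 14, 15, 16, 17,
    18, 19, 20, 12]

theorem parent_share : ∀ e : Fin 31, ∃ b b' : Bool, H.at' (parent e, b) = H.at' (e, b') := by
  have : ∀ e : Fin 31, ∃ b b' : Bool,
      (if b then tL (parent e) else sL (parent e)) = (if b' then tL e else sL e) := by decide +kernel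
  exact this

theorem parent_iter : ∀ e : Fin 31, parent (parent (parent e)) = 0 := by decide +kernel

theorem H_connected (M : ℕ) (hM : 0 < M) : (H.blow M).Connected := by
  apply blow_connected H M hM 0
  intro S h0 hS
  have hstep : ∀ e, parent e ∈ S → e ∈ S := by
    intro e he
    obtain ⟨b, b', hbb⟩ := parent_share e
    exact hS _ _ b b' he hbb
  intro e
  apply hstep
  apply hstep
  apply hstep
  rw [parent_iter]
  exact h0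

/-! ### Lower bound -/

theorem tight (x : Fin 31 → ℤ)
    (hx : ∀ (e0 : Fin 31) (b : Bool), ∃ Φ : Fin 12 → ℤ,
      (∀ e, 0 ≤ x e - (Φ (H.t e) - Φ (H.s e)) ∧ x e - (Φ (H.t e) - Φ (H.s e)) ≤ H.l e) ∧
      x e0 - (Φ (H.t e0) - Φ (H.s e0)) = if b then (H.l e0 : ℤ) else 0)
    (e0 e1 e2 : Fin 31) (h1 : H.s e0 = H.s e1) (h2 : H.t e1 = H.s e2) (h3 : H.t e2 = H.t e0)
    (h4 : H.l e0 = H.l e1 + H.l e2) : x e0 = x e1 + x e2 := by
  apply le_antisymm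
  · obtain ⟨Φ, hΦ, hΦ0⟩ := hx e0 false
    have ha := (hΦ e1).1
    have hb := (hΦ e2).1
    simp only [Bool.false_eq_true, if_false] at hΦ0
    rw [h1] at hΦ0
    rw [h2] at ha
    rw [h3] at hb
    linarith
  · obtain ⟨Φ, hΦ, hΦ0⟩ := hx e0 true
    have ha := (hΦ e1).2
    have hb := (hΦ e2).2
    simp only [if_true] at hΦ0
    rw [h1] at hΦ0
    rw [h2] at ha
    rw [h3] at hb
    have h5 : (H.l e0 : ℤ) = H.l e1 + H.l e2 := by exact_mod_cast h4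
    linarith

theorem impossible (x : Fin 31 → ℤ)
    (hx : ∀ (e0 : Fin 31) (b : Bool), ∃ Φ : Fin 12 → ℤ,
      (∀ e, 0 ≤ x e - (Φ (H.t e) - Φ (H.s e)) ∧ x e - (Φ (H.t e) - Φ (H.s e)) ≤ H.l e) ∧
      x e0 - (Φ (H.t e0) - Φ (H.s e0)) = if b then (H.l e0 : ℤ) else 0) : False := by
  -- tight triangles `c_i c_{i+1} a_{i+1}` and `c_i a_i a_{i+1}`
  have p0 := tight x hx 21 3 13 rfl rfl rfl rfl
  have p1 := tight x hx 22 4 14 rfl rfl rfl rfl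
  have p2 := tight x hx 23 5 15 rfl rfl rfl rfl
  have p3 := tight x hx 24 6 16 rfl rfl rfl rfl
  have p4 := tight x hx 25 7 17 rfl rfl rfl rfl
  have p5 := tight x hx 26 8 18 rfl rfl rfl rfl
  have p6 := tight x hx 27 9 19 rfl rfl rfl rfl
  have p7 := tight x hx 28 10 20 rfl rfl rfl rfl
  have p8 := tight x hx 29 11 12 rfl rfl rfl rfl
  have q0 := tight x hx 21 12 0 rfl rfl rfl rfl
  have q1 := tight x hx 22 13 1 rfl rfl rfl rfl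
  have q2 := tight x hx 23 14 2 rfl rfl rfl rfl
  have q3 := tight x hx 24 15 0 rfl rfl rfl rfl
  have q4 := tight x hx 25 16 1 rfl rfl rfl rfl
  have q5 := tight x hx 26 17 2 rfl rfl rfl rfl
  have q6 := tight x hx 27 18 0 rfl rfl rfl rfl
  have q7 := tight x hx 28 19 1 rfl rfl rfl rfl
  have q8 := tight x hx 29 20 2 rfl rfl rfl rfl
  -- the long edge `c_0 c_4`
  obtain ⟨Φ, hΦ, hΦ0⟩ := hx 30 false
  obtain ⟨Ψ, hΨ, hΨ0⟩ := hx 30 true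
  have hl30 : (H.l 30 : ℤ) = 4 := rfl
  have hup : x 3 + x 4 + x 5 + x 6 + x 7 + x 8 + x 9 + x 10 + x 11 ≤ 5 := by
    have g0 : x 3 - (Ψ 1 - Ψ 0) ≤ 1 := (hΨ 3).2
    have g1 : x 4 - (Ψ 2 - Ψ 1) ≤ 1 := (hΨ 4).2
    have g2 : x 5 - (Ψ 3 - Ψ 2) ≤ 1 := (hΨ 5).2
    have g3 : x 6 - (Ψ 4 - Ψ 3) ≤ 1 := (hΨ 6).2
    have g4 : x 7 - (Φ 5 - Φ 4) ≤ 1 := (hΦ 7).2
    have g5 : x 8 - (Φ 6 - Φ 5) ≤ 1 := (hΦ 8).2
    have g6 : x 9 - (Φ 7 - Φ 6) ≤ 1 := (hΦ 9).2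
    have g7 : x 10 - (Φ 8 - Φ 7) ≤ 1 := (hΦ 10).2
    have g8 : x 11 - (Φ 0 - Φ 8) ≤ 1 := (hΦ 11).2
    have g9 : x 30 - (Ψ 4 - Ψ 0) = 4 := hΨ0
    have g10 : x 30 - (Φ 4 - Φ 0) = 0 := hΦ0
    linarith
  have hlow : 4 ≤ x 3 + x 4 + x 5 + x 6 + x 7 + x 8 + x 9 + x 10 + x 11 := by
    have g0 : 0 ≤ x 3 - (Φ 1 - Φ 0) := (hΦ 3).1
    have g1 : 0 ≤ x 4 - (Φ 2 - Φ 1) := (hΦ 4).1
    have g2 : 0 ≤ x 5 - (Φ 3 - Φ 2) := (hΦ 5).1
    have g3 : 0 ≤ x 6 - (Φ 4 - Φ 3) := (hΦ 6).1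
    have g4 : 0 ≤ x 7 - (Ψ 5 - Ψ 4) := (hΨ 7).1
    have g5 : 0 ≤ x 8 - (Ψ 6 - Ψ 5) := (hΨ 8).1
    have g6 : 0 ≤ x 9 - (Ψ 7 - Ψ 6) := (hΨ 9).1
    have g7 : 0 ≤ x 10 - (Ψ 8 - Ψ 7) := (hΨ 10).1
    have g8 : 0 ≤ x 11 - (Ψ 0 - Ψ 8) := (hΨ 11).1
    have g9 : x 30 - (Ψ 4 - Ψ 0) = 4 := hΨ0
    have g10 : x 30 - (Φ 4 - Φ 0) = 0 := hΦ0
    linarith
  omega

theorem gon_big : 31 < (H.blow 32).gon := by
  by_contra hcon
  push Not at hcon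
  obtain ⟨D, h0, hd, hr⟩ := (H.blow 32).gon_spec
  have hcard : Fintype.card (Fin 31) = 31 := by simp
  obtain ⟨x, hx⟩ := H.lower 32 (by rw [hcard]; norm_num) D h0
    (by rw [hd, hcard]; exact_mod_cast hcon) hr
  exact impossible x hx

/-! ### Upper bound -/

theorem ha_check : ∀ (w : Fin 12) (e : Fin 31),
    (0 ≤ (lL e : ℤ) - (dL w (tL e) - dL w (sL e)) ∧
      0 ≤ ((lL e : ℤ) - (dL w (tL e) - dL w (sL e))) + ((xiL e : ℤ) - (bL w (tL e) - bL w (sL e)))) ∧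
    (0 ≤ (lL e : ℤ) + (dL w (tL e) - dL w (sL e)) ∧
      0 ≤ ((lL e : ℤ) + (dL w (tL e) - dL w (sL e))) +
        ((lL e : ℤ) - (xiL e : ℤ) + (bL w (tL e) - bL w (sL e)))) := by decide +kernel

theorem hb_check : ∀ e : Fin 31,
    dL (sL e) (tL e) - dL (sL e) (sL e) = lL e ∧ bL (sL e) (tL e) - bL (sL e) (sL e) = xiL e ∧
    dL (tL e) (sL e) - dL (tL e) (tL e) = lL e ∧
    bL (tL e) (sL e) - bL (tL e) (tL e) = (lL e : ℤ) - xiL e := by decide +kernel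

theorem xi_le : ∀ e : Fin 31, xiL e ≤ lL e := by decide +kernel

theorem comb_nonneg (m r : ℕ) (hm : 1 ≤ m) (hr : r ≤ 1) (a b : ℤ) (h1 : 0 ≤ a) (h2 : 0 ≤ a + b) :
    0 ≤ (m : ℤ) * a + r * b := by
  have hm' : (1 : ℤ) ≤ m := by exact_mod_cast hm
  rcases Nat.le_one_iff_eq_zero_or_eq_one.mp hr with h | h
  · subst h
    simp only [Nat.cast_zero, zero_mul, add_zero]
    positivity
  · subst h
    simp only [Nat.cast_one, one_mul]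
    nlinarith

theorem gon_small (m r : ℕ) (hm : 1 ≤ m) (hr : r ≤ 1) :
    ((H.blow 32).subdiv (2 * m + r)).gon ≤ 31 := by
  have hcard : Fintype.card (Fin 31) = 31 := by simp
  have := H.upper 32 (2 * m + r) (by omega) (fun e => m * lL e + r * xiL e) (by
      intro e
      change m * lL e + r * xiL e ≤ (2 * m + r) * lL e
      have h1 := xi_le e
      have h2 : r * xiL e ≤ r * lL e := Nat.mul_le_mul_left r h1
      have h3 : (2 * m + r) * lL e = m * lL e + m * lL e + r * lL e := by ring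
      omega)
    (fun w v => (m : ℤ) * dL w v + r * bL w v) (by
      intro w e
      obtain ⟨⟨h1, h2⟩, ⟨h3, h4⟩⟩ := ha_check w e
      have h5 := comb_nonneg m r hm hr _ _ h1 h2
      have h6 := comb_nonneg m r hm hr _ _ h3 h4
      change 0 ≤ ((m * lL e + r * xiL e : ℕ) : ℤ) -
          ((m : ℤ) * dL w (tL e) + r * bL w (tL e) - ((m : ℤ) * dL w (sL e) + r * bL w (sL e))) ∧
        ((m * lL e + r * xiL e : ℕ) : ℤ) -
          ((m : ℤ) * dL w (tL e) + r * bL w (tL e) - ((m : ℤ) * dL w (sL e) + r * bL w (sL e))) ≤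
          (((2 * m + r) * lL e : ℕ) : ℤ)
      push_cast
      constructor
      · linarith
      · linarith) (by
      intro e
      obtain ⟨h1, h2, h3, h4⟩ := hb_check e
      change (m : ℤ) * dL (sL e) (tL e) + r * bL (sL e) (tL e) -
          ((m : ℤ) * dL (sL e) (sL e) + r * bL (sL e) (sL e)) = ((m * lL e + r * xiL e : ℕ) : ℤ) ∧
        (m : ℤ) * dL (tL e) (sL e) + r * bL (tL e) (sL e) -
          ((m : ℤ) * dL (tL e) (tL e) + r * bL (tL e) (tL e)) =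
          (((2 * m + r) * lL e : ℕ) : ℤ) - ((m * lL e + r * xiL e : ℕ) : ℤ)
      push_cast
      constructor
      · rw [← h1, ← h2]; ring
      · have h5 : (m : ℤ) * dL (tL e) (sL e) + r * bL (tL e) (sL e) -
            ((m : ℤ) * dL (tL e) (tL e) + r * bL (tL e) (tL e)) =
            m * (dL (tL e) (sL e) - dL (tL e) (tL e)) + r * (bL (tL e) (sL e) - bL (tL e) (tL e)) := by
          ring
        rw [h5, h3, h4]; ring)
  rw [hcard] at this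
  exact this

/-- There is a finite connected loopless multigraph `G` such that `gon(G^(k)) < gon(G)` for every `k ≥ 2`;
in particular the gonality drops for every odd `k ≥ 3`. -/
theorem result : ∃ (V E : Type) (_ : Fintype V) (_ : Fintype E) (G : MGraph V E),
    G.Connected ∧ ∀ k : ℕ, 2 ≤ k → (G.subdiv k).gon < G.gon := by
  refine ⟨H.BV, H.BE 32, inferInstance, inferInstance, H.blow 32, H_connected 32 (by norm_num), ?_⟩
  intro k hk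
  have h1 := gon_small (k / 2) (k % 2) (by omega) (by omega)
  have h2 : 2 * (k / 2) + k % 2 = k := Nat.div_add_mod k 2
  rw [h2] at h1
  exact lt_of_le_of_lt h1 gon_big

end Pool.Agent.Results.MP_28c31d_co.EverySubdivision
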