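import Mathlib
import Pool.Agent.Hhelper52.GonDefs
import Pool.Agent.Hhelper52.GonBasic

set_option autoImplicit false

namespace Pool.Agent.Results.MP_28c31d_co.RatioTwo

open Pool.Agent.Hhelper52.Gon MGraph

theorem monotone_partial (a s : ℕ → ℤ) (n : ℕ) (ha : ∀ j, j < n → 0 ≤ a j)
    (h : ∀ j, j < n → s j - a j ≤ s (j + 1)) :
    ∀ t, t ≤ n → s 0 - ∑ j ∈ Finset.range n, a j ≤ s t ∧ s t - ∑ j ∈ Finset.range n, a j ≤ s n := by
  have h1 : ∀ t, t ≤ n → ∀ u, u ≤ t → s u - ∑ j ∈ Finset.Ico u t, a j ≤ s t := by
    intro t
    induction t with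
    | zero =>
      intro _ u hu
      have : u = 0 := by omega
      subst this
      simp
    | succ t ih =>
      intro ht u hu
      rcases Nat.lt_or_ge t u with h2 | h2
      · have : u = t + 1 := by omega
        subst this
        simp
      · have h3 := ih (by omega) u h2
        rw [Finset.sum_Ico_succ_top h2]
        have h4 := h t (by omega)
        linarith
  have h2 : ∀ u t, u ≤ t → t ≤ n → ∑ j ∈ Finset.Ico u t, a j ≤ ∑ j ∈ Finset.range n, a j := by
    intro u t _ htn
    apply Finset.sum_le_sum_of_subset_of_nonneg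
    · intro x hx
      rw [Finset.mem_Ico] at hx
      rw [Finset.mem_range]
      omega
    · intro i hi _
      exact ha i (Finset.mem_range.mp hi)
  intro t ht
  constructor
  · have := h1 t ht 0 (Nat.zero_le _)
    have := h2 0 t (Nat.zero_le _) ht
    linarith
  · have := h1 n le_rfl t ht
    have := h2 t n ht le_rfl
    linarith

/-- For every finite loopless multigraph `G` (connected or not) and every `k ≥ 1`,
`gon(G) ≤ 2 gon(G^(k))`. -/
theorem result (V E : Type) [Fintype V] [Fintype E] (G : MGraph V E) (k : ℕ) (hk : 1 ≤ k) :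
    G.gon ≤ 2 * (G.subdiv k).gon := by
  classical
  obtain ⟨D, hD0, hDd, hDr⟩ := (G.subdiv k).gon_spec
  set c : E → ℤ := fun e => ∑ j : Fin (k - 1), D (Sum.inr (e, j)) with hc
  have hc0 : ∀ e, 0 ≤ c e := fun e => Finset.sum_nonneg (fun j _ => hD0 _)
  set D2 : V → ℤ := fun v => D (Sum.inl v) +
    ∑ e, ((if G.src e = v then c e else 0) + (if G.tgt e = v then c e else 0)) with hD2
  have hD20 : ∀ v, 0 ≤ D2 v := by
    intro v
    apply add_nonneg (hD0 _)
    apply Finset.sum_nonneg
    intro e _
    apply add_nonneg
    · split_ifs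
      · exact hc0 e
      · exact le_rfl
    · split_ifs
      · exact hc0 e
      · exact le_rfl
  have hsumD : ∑ v, D (Sum.inl v) + ∑ e, c e = ((G.subdiv k).gon : ℤ) := by
    rw [← hDd, Fintype.sum_sum_type, Fintype.sum_prod_type]
  have hsumD2 : ∑ v, D2 v = ∑ v, D (Sum.inl v) + 2 * ∑ e, c e := by
    simp only [hD2]
    rw [Finset.sum_add_distrib, Finset.sum_comm]
    congr 1
    rw [Finset.mul_sum]
    apply Finset.sum_congr rfl
    intro e _
    rw [Finset.sum_add_distrib, Finset.sum_ite_eq Finset.univ (G.src e) (fun _ => c e),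
      Finset.sum_ite_eq Finset.univ (G.tgt e) (fun _ => c e)]
    simp only [Finset.mem_univ, if_true]
    ring
  have hinl0 : 0 ≤ ∑ v, D (Sum.inl v) := Finset.sum_nonneg (fun v _ => hD0 _)
  have hle : ∑ v, D2 v ≤ 2 * ((G.subdiv k).gon : ℤ) := by linarith
  have hnn : 0 ≤ ∑ v, D2 v := Finset.sum_nonneg (fun v _ => hD20 v)
  have hrank : G.RankGeOne D2 := by
    apply rank_intro
    intro v0
    obtain ⟨f, hf, hf0⟩ := rank_elim _ _ hDr (Sum.inl v0)
    -- the edge inequalities
    have hedge : ∀ e, (k : ℤ) * (f (G.node k e 1) - f (Sum.inl (G.src e)) - c e) ≤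
          f (Sum.inl (G.tgt e)) - f (Sum.inl (G.src e)) ∧
        (k : ℤ) * (f (G.node k e (k - 1)) - f (Sum.inl (G.tgt e)) - c e) ≤
          f (Sum.inl (G.src e)) - f (Sum.inl (G.tgt e)) := by
      intro e
      set s : ℕ → ℤ := fun t => f (G.node k e (t + 1)) - f (G.node k e t) with hs
      set a : ℕ → ℤ := fun j => if h : j < k - 1 then D (Sum.inr (e, ⟨j, h⟩)) else 0 with ha
      have hasum : ∑ j ∈ Finset.range (k - 1), a j = c e := by
        rw [hc, Finset.sum_range]
        apply Finset.sum_congr rfl
        intro j _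
        simp only [ha, j.2, dif_pos]
      have hstep : ∀ j, j < k - 1 → s j - a j ≤ s (j + 1) := by
        intro j hj
        have h1 := hf (Sum.inr (e, ⟨j, hj⟩)) (by simp)
        rw [lap_subdiv_inr] at h1
        simp only at h1
        simp only [hs, ha, hj, dif_pos]
        have e2 : j + 1 + 1 = j + 2 := rfl
        rw [e2]
        linarith
      have hmon := monotone_partial a s (k - 1) (by
        intro j hj
        simp only [ha, hj, dif_pos]
        exact hD0 _) hstep
      rw [hasum] at hmon
      have htel : ∑ t ∈ Finset.range k, s t = f (Sum.inl (G.tgt e)) - f (Sum.inl (G.src e)) := by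
        rw [hs, Finset.sum_range_sub (fun t => f (G.node k e t)), node_last G k hk, node_zero]
      have hs0 : s 0 = f (G.node k e 1) - f (Sum.inl (G.src e)) := by
        simp only [hs, zero_add, node_zero]
      have hsl : s (k - 1) = f (Sum.inl (G.tgt e)) - f (G.node k e (k - 1)) := by
        simp only [hs]
        rw [Nat.sub_add_cancel hk, node_last G k hk]
      constructor
      · rw [← htel, ← hs0]
        have : ∑ t ∈ Finset.range k, (s 0 - c e) ≤ ∑ t ∈ Finset.range k, s t := by
          apply Finset.sum_le_sum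
          intro t ht
          rw [Finset.mem_range] at ht
          exact (hmon t (by omega)).1
        rw [Finset.sum_const, Finset.card_range, nsmul_eq_mul] at this
        exact this
      · have : ∑ t ∈ Finset.range k, s t ≤ ∑ t ∈ Finset.range k, (s (k - 1) + c e) := by
          apply Finset.sum_le_sum
          intro t ht
          rw [Finset.mem_range] at ht
          have := (hmon t (by omega)).2
          linarith
        rw [Finset.sum_const, Finset.card_range, nsmul_eq_mul, htel, hsl] at this
        have h5 : (k : ℤ) * (f (G.node k e (k - 1)) - f (Sum.inl (G.tgt e)) - c e) =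
          - ((k : ℤ) * (f (Sum.inl (G.tgt e)) - f (G.node k e (k - 1)) + c e)) := by ring
        rw [h5]
        linarith
    have hkpos : (0 : ℤ) < k := by exact_mod_cast hk
    have hfloor : ∀ x y m : ℤ, (k : ℤ) * m ≤ y - x → m ≤ y / k - x / k := by
      intro x y m h
      have h1 : x + k * m ≤ y := by linarith
      have h2 := Int.ediv_le_ediv hkpos h1
      rw [Int.add_mul_ediv_left x m hkpos.ne'] at h2
      linarith
    set g : V → ℤ := fun v => f (Sum.inl v) / k with hg
    have hmain : ∀ w, D (Sum.inl w) + (G.subdiv k).lap f (Sum.inl w) ≤ D2 w + G.lap g w := by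
     intro w
     rw [lap_subdiv_inl G k hk f w]
     have h4 : ∑ e, ((if G.src e = w then f (G.node k e 1) - f (Sum.inl w) else 0) +
         (if G.tgt e = w then f (G.node k e (k - 1)) - f (Sum.inl w) else 0)) ≤
         (∑ e, ((if G.src e = w then c e else 0) + (if G.tgt e = w then c e else 0))) + G.lap g w := by
       unfold lap
       rw [← Finset.sum_add_distrib]
       apply Finset.sum_le_sum
       intro e _
       obtain ⟨he1, he2⟩ := hedge e
       have he3 := hfloor _ _ _ he1
       have he4 := hfloor _ _ _ he2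
       by_cases hsrc : G.src e = w
       · have htgt : G.tgt e ≠ w := by
           intro h
           exact G.loopless e (hsrc.trans h.symm)
         rw [if_pos hsrc, if_neg htgt, if_pos hsrc, if_neg htgt, if_pos hsrc, if_neg htgt]
         rw [hsrc] at he3
         simp only [hg]
         linarith
       · by_cases htgt : G.tgt e = w
         · rw [if_neg hsrc, if_pos htgt, if_neg hsrc, if_pos htgt, if_neg hsrc, if_pos htgt]
           rw [htgt] at he4
           simp only [hg]
           linarith
         · rw [if_neg hsrc, if_neg htgt, if_neg hsrc, if_neg htgt, if_neg hsrc, if_neg htgt]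
           simp
     have h5 : D2 w = D (Sum.inl w) +
       ∑ e, ((if G.src e = w then c e else 0) + (if G.tgt e = w then c e else 0)) := rfl
     rw [h5]
     linarith
    refine ⟨g, ?_, ?_⟩
    · intro w hw
      have h1 := hf (Sum.inl w) (fun h => hw (Sum.inl.inj h))
      have h2 := hmain w
      linarith
    · have h2 := hmain v0
      linarith
  have hfin := gon_le G (∑ v, D2 v).toNat D2 hD20 (by rw [Int.toNat_of_nonneg hnn]) hrank
  have : ((∑ v, D2 v).toNat : ℤ) ≤ 2 * ((G.subdiv k).gon : ℤ) := by
    rw [Int.toNat_of_nonneg hnn]; exact hle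
  have h6 : (∑ v, D2 v).toNat ≤ 2 * (G.subdiv k).gon := by exact_mod_cast this
  exact hfin.trans h6

end Pool.Agent.Results.MP_28c31d_co.RatioTwo
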